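import Mathlib

set_option autoImplicit false
set_option linter.unusedSectionVars false

/-! Functions which are affine in every coordinate, and the limit argument. -/

namespace Pool.Agent.Helper22.CR

open Filter Topology Function

section ma

variable {L : Type} [Field L] {ι : Type} [Fintype ι] [DecidableEq ι]

/-- affine in every coordinate -/
def MA (F : (ι → L) → L) : Prop :=
  ∀ (Y : ι → L) (j : ι) (t : L), F (update Y j t) =
    (1 - t) * F (update Y j 0) + t * F (update Y j 1)

lemma MA.zero_of_cube {F : (ι → L) → L} (h : MA F)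
    (h0 : ∀ Y : ι → L, (∀ j, Y j = 0 ∨ Y j = 1) → F Y = 0) : F = 0 := by
  have key : ∀ (s : Finset ι) (Y : ι → L), (∀ j, j ∉ s → Y j = 0 ∨ Y j = 1) → F Y = 0 := by
    intro s
    induction s using Finset.induction_on with
    | empty => intro Y hY; exact h0 Y fun j => hY j (by simp)
    | insert a s ha ih =>
      intro Y hY
      have h1 := h Y a (Y a)
      rw [update_eq_self] at h1
      rw [h1, ih, ih]
      · ring
      · intro j hj
        by_cases hja : j = a
        · subst hja; right; simp
        · rw [update_of_ne hja]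
          exact hY j (by simp [hja, hj])
      · intro j hj
        by_cases hja : j = a
        · subst hja; left; simp
        · rw [update_of_ne hja]
          exact hY j (by simp [hja, hj])
  funext Y
  exact key Finset.univ Y fun j hj => absurd (Finset.mem_univ j) hj

lemma MA.affine {F : (ι → L) → L} (h : MA F) (Z : ι → L) (j : ι) (α β t : L) :
    F (update Z j (α * t + β)) = (1 - t) * F (update Z j (α * 0 + β)) +
      t * F (update Z j (α * 1 + β)) := by
  rw [h Z j (α * t + β), h Z j (α * 0 + β), h Z j (α * 1 + β)]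
  ring

/-- diagonal affine map -/
def dg (a b : ι → L) (Y : ι → L) : ι → L := fun j => a j * Y j + b j

lemma dg_update (a b : ι → L) (Y : ι → L) (j : ι) (t : L) :
    dg a b (update Y j t) = update (dg a b Y) j (a j * t + b j) := by
  funext i
  by_cases h : i = j
  · subst h; simp [dg]
  · simp [dg, update_of_ne h]

lemma MA.comp_dg {F : (ι → L) → L} (h : MA F) (a b : ι → L) : MA (fun Y => F (dg a b Y)) := by
  intro Y j t
  simp only [dg_update]
  exact h.affine _ _ _ _ _

end ma

section key

variable {L : Type} [Field L] [TopologicalSpace L] [IsTopologicalRing L] [T2Space L]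
variable {ι : Type} [Fintype ι] [DecidableEq ι]

lemma continuous_dg (a b : ι → L) : Continuous (dg a b) := by
  unfold dg
  fun_prop

/-- continuous functions, affine in every coordinate, depending only on the coordinates in `A` -/
def HA (L : Type) [Field L] [TopologicalSpace L] [IsTopologicalRing L] {ι : Type} [Fintype ι]
    [DecidableEq ι] (A : Set ι) : Submodule L ((ι → L) → L) where
  carrier := {F | MA F ∧ Continuous F ∧ ∀ Y Y', (∀ j ∈ A, Y j = Y' j) → F Y = F Y'}
  add_mem' := by
    rintro F G ⟨h1, h2, h3⟩ ⟨g1, g2, g3⟩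
    refine ⟨?_, h2.add g2, ?_⟩
    · intro Y j t
      simp only [Pi.add_apply]
      rw [h1 Y j t, g1 Y j t]
      ring
    · intro Y Y' h
      simp only [Pi.add_apply, h3 Y Y' h, g3 Y Y' h]
  zero_mem' := ⟨fun Y j t => by simp, continuous_const, fun _ _ _ => rfl⟩
  smul_mem' := by
    rintro c F ⟨h1, h2, h3⟩
    refine ⟨?_, h2.const_smul c, ?_⟩
    · intro Y j t
      simp only [Pi.smul_apply, smul_eq_mul]
      rw [h1 Y j t]
      ring
    · intro Y Y' h
      simp only [Pi.smul_apply, h3 Y Y' h]

lemma mem_HA {A : Set ι} {F : (ι → L) → L} : F ∈ HA L A ↔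
    MA F ∧ Continuous F ∧ ∀ Y Y', (∀ j ∈ A, Y j = Y' j) → F Y = F Y' := Iff.rfl

instance finite_HA (A : Set ι) : FiniteDimensional L (HA L A) := by
  let f : HA L A →ₗ[L] ((ι → Bool) → L) :=
    { toFun := fun F e => F.1 (fun j => if e j then 1 else 0)
      map_add' := fun F G => rfl
      map_smul' := fun c F => rfl }
  refine FiniteDimensional.of_injective f ?_
  rw [← LinearMap.ker_eq_bot, LinearMap.ker_eq_bot']
  intro F hF
  apply Subtype.ext
  apply F.2.1.zero_of_cube
  intro Y hY
  classical
  have h1 : Y = fun j => if (decide (Y j = 1) : Bool) then (1 : L) else 0 := by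
    funext j
    rcases hY j with h | h
    · simp [h]
    · simp [h]
  have h2 := congrFun hF (fun j => decide (Y j = 1))
  rw [h1]
  exact h2

lemma HA_comp {A : Set ι} {F : (ι → L) → L} (hF : F ∈ HA L A) (a b : ι → L) :
    (fun Y => F (dg a b Y)) ∈ HA L A := by
  refine ⟨hF.1.comp_dg a b, hF.2.1.comp (continuous_dg a b), ?_⟩
  intro Y Y' h
  apply hF.2.2
  intro j hj
  show a j * Y j + b j = a j * Y' j + b j
  rw [h j hj]

/-- pullback -/
def pull (A : Set ι) (a b : ι → L) : HA L A →ₗ[L] HA L A where
  toFun F := ⟨fun Y => F.1 (dg a b Y), HA_comp F.2 a b⟩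
  map_add' _ _ := rfl
  map_smul' _ _ := rfl

theorem key {R : Type} (Y : R → ι → L) (s π : R → L) (G : (ι → L) → L) (hMA : MA G)
    (hc : Continuous G) (hG : ∀ r, G (Y r) = s r) (a b : ℕ → ι → L) (a' b' : ι → L)
    (ε δ : ℕ → L) (step : ℕ → R → R)
    (hY : ∀ k r j, Y (step k r) j = a k j * Y r j + b k j)
    (hs : ∀ k r, s (step k r) = s r + ε k * π r)
    (hπ : ∀ k r, π (step k r) = δ k * π r)
    (hε : Tendsto ε atTop (𝓝 0)) (hδ : Tendsto δ atTop (𝓝 0)) (hε0 : ε 0 ≠ 0)
    (ha : ∀ j, Tendsto (fun k => a k j) atTop (𝓝 (a' j)))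
    (hb : ∀ j, Tendsto (fun k => b k j) atTop (𝓝 (b' j))) : ∀ r, π r = 0 := by
  set A : Set ι := {j | a' j ≠ 0} with hA
  have hYd : ∀ k r, Y (step k r) = dg (a k) (b k) (Y r) := fun k r => funext fun j => hY k r j
  have hYlim : ∀ r, Tendsto (fun k => Y (step k r)) atTop (𝓝 (dg a' b' (Y r))) := by
    intro r
    rw [tendsto_pi_nhds]
    intro j
    simp only [hY]
    exact ((ha j).mul_const _).add (hb j)
  -- the function `s` in terms of the coordinates in `A`
  have hS : (fun Z => G (dg a' b' Z)) ∈ HA L A := by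
    refine ⟨hMA.comp_dg _ _, hc.comp (continuous_dg _ _), ?_⟩
    intro Z Z' h
    have hdd : dg a' b' Z = dg a' b' Z' := by
      funext j
      by_cases hj : j ∈ A
      · show a' j * Z j + b' j = a' j * Z' j + b' j
        rw [h j hj]
      · have : a' j = 0 := by
          by_contra h0
          exact hj h0
        simp [dg, this]
    show G (dg a' b' Z) = G (dg a' b' Z')
    rw [hdd]
  have hSval : ∀ r, G (dg a' b' (Y r)) = s r := by
    intro r
    have h1 : Tendsto (fun k => G (Y (step k r))) atTop (𝓝 (G (dg a' b' (Y r)))) :=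
      (hc.tendsto _).comp (hYlim r)
    have h2 : Tendsto (fun k => G (Y (step k r))) atTop (𝓝 (s r)) := by
      simp only [hG, hs]
      simpa using (hε.mul_const (π r)).const_add (s r)
    exact tendsto_nhds_unique h1 h2
  -- the function `π`
  let HS : HA L A := ⟨_, hS⟩
  let HP : HA L A := (ε 0)⁻¹ • (pull A (a 0) (b 0) HS - HS)
  have hPval : ∀ r, HP.1 (Y r) = π r := by
    intro r
    show (ε 0)⁻¹ * (G (dg a' b' (dg (a 0) (b 0) (Y r))) - G (dg a' b' (Y r))) = π r
    rw [← hYd, hSval, hSval, hs]
    field_simp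
    ring
  -- functions vanishing on the reachable points
  let N : Submodule L (HA L A) :=
    { carrier := {F | ∀ r, F.1 (Y r) = 0}
      add_mem' := by
        intro F F' h h' r
        show F.1 (Y r) + F'.1 (Y r) = 0
        rw [h r, h' r, add_zero]
      zero_mem' := fun r => rfl
      smul_mem' := by
        intro c F h r
        show c * F.1 (Y r) = 0
        rw [h r, mul_zero] }
  have hlim : ∀ (F : HA L A) (r : R),
      Tendsto (fun k => F.1 (Y (step k r))) atTop (𝓝 (F.1 (dg a' b' (Y r)))) :=
    fun F r => (F.2.2.1.tendsto _).comp (hYlim r)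
  have hN : ∀ F ∈ N, pull A a' b' F ∈ N := by
    intro F hF r
    have h1 := hlim F r
    have h2 : (fun k => F.1 (Y (step k r))) = fun _ => 0 := funext fun k => hF _
    rw [h2] at h1
    exact tendsto_nhds_unique h1 tendsto_const_nhds
  have hinj : Injective (pull A a' b') := by
    intro F F' h
    apply Subtype.ext
    funext Z
    let Z' : ι → L := fun j => (a' j)⁻¹ * (Z j - b' j)
    have h1 : ∀ j ∈ A, dg a' b' Z' j = Z j := by
      intro j hj
      have : a' j ≠ 0 := hj
      simp only [dg, Z']
      field_simp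
      ring
    have h2 : F.1 (dg a' b' Z') = F'.1 (dg a' b' Z') :=
      congrFun (congrArg Subtype.val h) Z'
    rw [F.2.2.2 _ _ h1, F'.2.2.2 _ _ h1] at h2
    exact h2
  have hPN : pull A a' b' HP ∈ N := by
    intro r
    have h1 := hlim HP r
    simp only [hPval, hπ] at h1
    have h2 : Tendsto (fun k => δ k * π r) atTop (𝓝 0) := by
      simpa using hδ.mul_const (π r)
    exact tendsto_nhds_unique h1 h2
  have hinj2 : Injective ((pull A a' b').restrict hN) := by
    intro F F' h
    apply Subtype.ext
    apply hinj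
    exact congrArg Subtype.val h
  have hsurj : Surjective ((pull A a' b').restrict hN) := by
    exact (LinearMap.injective_iff_surjective (K := L) (V := N)
      (f := (pull A a' b').restrict hN)).1 hinj2
  obtain ⟨F, hF⟩ := hsurj ⟨_, hPN⟩
  have hF' : pull A a' b' F.1 = pull A a' b' HP := congrArg Subtype.val hF
  have hFP := hinj hF'
  intro r
  rw [← hPval, ← hFP]
  exact F.2 r

end key

end Pool.Agent.Helper22.CR
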