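import Pool.Agent.Helper22.CR.C1

set_option autoImplicit false
set_option linter.unusedSectionVars false

/-! Copyless maps and the strand argument. -/

namespace Pool.Agent.Helper22.CR

open Function

section cl

variable {L : Type} [Field L] {ι : Type} [Fintype ι] [DecidableEq ι]

/-- a copyless map: every coordinate influences at most one component, affinely -/
structure CL (F : (ι → L) → ι → L) (φ : ι → Option ι) : Prop where
  dep : ∀ (l j : ι) (Y : ι → L) (t : L), φ l ≠ some j → F (update Y l t) j = F Y j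
  ma : ∀ j, MA (fun Y => F Y j)

lemma indep_of {g : (ι → L) → L} (Y' : ι → L) : ∀ (s : Finset ι) (Y : ι → L),
    (∀ l, l ∉ s → Y l = Y' l) → (∀ l ∈ s, ∀ (Y : ι → L) (t : L), g (update Y l t) = g Y) →
    g Y = g Y' := by
  intro s
  induction s using Finset.induction_on with
  | empty =>
    intro Y h _
    have : Y = Y' := funext fun l => h l (by simp)
    rw [this]
  | insert a s ha ih =>
    intro Y h hi
    rw [← hi a (by simp) Y (Y' a)]
    apply ih
    · intro l hl
      by_cases hla : l = a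
      · subst hla; simp
      · rw [update_of_ne hla]
        exact h l (by simp [hla, hl])
    · intro l hl
      exact hi l (by simp [hl])

lemma CL.eq_of {F : (ι → L) → ι → L} {φ : ι → Option ι} (h : CL F φ) (j : ι) (Y Y' : ι → L)
    (hY : ∀ l, φ l = some j → Y l = Y' l) : F Y j = F Y' j := by
  apply indep_of (g := fun Y => F Y j) Y' (Finset.univ.filter fun l => φ l ≠ some j) Y
  · intro l hl
    apply hY
    simpa using hl
  · intro l hl Y t
    exact h.dep l j Y t (by simpa using hl)

lemma CL.id : CL (fun Y : ι → L => Y) some where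
  dep l j Y t h := update_of_ne (fun h' => h (by rw [h'])) _ _
  ma j := by
    intro Y l t
    by_cases h : j = l
    · subst h; simp
    · simp only [update_of_ne h]
      ring

lemma CL.comp {F H : (ι → L) → ι → L} {φ ψ : ι → Option ι} (hF : CL F φ) (hH : CL H ψ) :
    CL (fun Y => H (F Y)) (fun l => (φ l).bind ψ) where
  dep l j Y t h := by
    apply hH.eq_of
    intro m hm
    apply hF.dep
    intro h'
    apply h
    simp only [h', Option.bind_some, hm]
  ma j := by
    intro Y l t
    rcases hφ : φ l with _ | m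
    · have h1 : ∀ x, F (update Y l x) = F Y := fun x => funext fun i =>
        hF.dep l i Y x (by simp [hφ])
      simp only [h1]
      ring
    · have h1 : ∀ x, F (update Y l x) = update (F Y) m (F (update Y l x) m) := by
        intro x
        funext i
        by_cases hi : i = m
        · subst hi; simp
        · rw [update_of_ne hi]
          exact hF.dep l i Y x (by simp [hφ, Ne.symm hi])
      have h2 := hF.ma m Y l t
      simp only at h2
      have h3 := fun x => hH.ma j (F Y) m x
      simp only at h3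
      simp only
      rw [h1 t, h1 0, h1 1, h3 (F (update Y l t) m), h3 (F (update Y l 0) m),
        h3 (F (update Y l 1) m), h2]
      ring

open Classical in
/-- the non-constant components -/
noncomputable def NC (F : (ι → L) → ι → L) : Finset ι :=
  Finset.univ.filter fun j => ∃ Y Y', F Y j ≠ F Y' j

lemma mem_NC {F : (ι → L) → ι → L} {j : ι} : j ∈ NC F ↔ ∃ Y Y', F Y j ≠ F Y' j := by
  simp [NC]

lemma not_mem_NC {F : (ι → L) → ι → L} {j : ι} (h : j ∉ NC F) (Y Y' : ι → L) :
    F Y j = F Y' j := by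
  by_contra h'
  exact h (mem_NC.2 ⟨Y, Y', h'⟩)

lemma nc_src {F H : (ι → L) → ι → L} {ψ : ι → Option ι} (hH : CL H ψ) {j : ι}
    (hj : j ∈ NC (fun Y => H (F Y))) : ∃ i ∈ NC F, ψ i = some j := by
  by_contra hcon
  push Not at hcon
  obtain ⟨Y, Y', h⟩ := mem_NC.1 hj
  apply h
  apply hH.eq_of
  intro l hl
  apply not_mem_NC
  intro hl'
  exact hcon l hl' hl

lemma nc_comp_subset (F H : (ι → L) → ι → L) : NC (fun Y => H (F Y)) ⊆ NC H := by
  intro j hj
  obtain ⟨Y, Y', h⟩ := mem_NC.1 hj
  exact mem_NC.2 ⟨_, _, h⟩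

/-- the post-set of `W` -/
def Post (W : (ι → L) → ι → L) : Set (ι → L) := {Y | ∀ j, j ∉ NC W → Y j = W 0 j}

lemma mem_Post (W : (ι → L) → ι → L) (Z : ι → L) : W Z ∈ Post W :=
  fun _ hj => not_mem_NC hj _ _

/-- the strand lemma -/
lemma strand {W V : (ι → L) → ι → L} {φ ψ : ι → Option ι} (hW : CL W φ) (hV : CL V ψ)
    (hmin : (NC W).card ≤ (NC (fun Y => W (V (W Y)))).card) :
    ∃ (β : Equiv.Perm (NC W)) (A B : NC W → L), ∀ Y ∈ Post W, ∀ j : NC W,
      W (V Y) j = A j * Y (β j) + B j := by
  have hT : CL (fun Y => W (V Y)) (fun l => (ψ l).bind φ) := hV.comp hW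
  set χ : ι → Option ι := fun l => (ψ l).bind φ with hχ
  have hNC : NC (fun Y => W (V (W Y))) = NC W := by
    apply Finset.eq_of_subset_of_card_le
    · exact nc_comp_subset (fun Y => V (W Y)) W
    · exact hmin
  have hsrc : ∀ j : NC W, ∃ i : NC W, χ i = some j.1 := by
    intro j
    have hj : j.1 ∈ NC (fun Y => W (V (W Y))) := by rw [hNC]; exact j.2
    obtain ⟨i, hi, hi'⟩ := nc_src (F := W) (H := fun Y => W (V Y)) hT hj
    exact ⟨⟨i, hi⟩, hi'⟩
  choose β hβ using hsrc
  have hinj : Injective β := by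
    intro j j' h
    have h1 := hβ j
    rw [h, hβ j'] at h1
    exact Subtype.ext (Option.some.inj h1).symm
  have hbij : Bijective β := Finite.injective_iff_bijective.1 hinj
  let C : ι → L := fun l => if l ∈ NC W then 0 else W 0 l
  refine ⟨Equiv.ofBijective β hbij,
    fun j => W (V (update C (β j) 1)) j - W (V (update C (β j) 0)) j,
    fun j => W (V (update C (β j) 0)) j, ?_⟩
  intro Y hY j
  have h1 : W (V Y) j = W (V (update C (β j) (Y (β j)))) j := by
    apply hT.eq_of
    intro l hl
    by_cases hlN : l ∈ NC W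
    · obtain ⟨j', hj'⟩ := hbij.2 ⟨l, hlN⟩
      have h2 := hβ j'
      rw [hj'] at h2
      simp only at h2
      rw [hl] at h2
      have h3 : j = j' := Subtype.ext (Option.some.inj h2)
      rw [h3, hj']
      simp
    · have h2 : l ≠ β j := by
        rintro rfl
        exact hlN (β j).2
      rw [update_of_ne h2]
      simp only [C, if_neg hlN]
      exact hY l hlN
  rw [h1]
  have h2 := hT.ma j C (β j) (Y (β j))
  simp only at h2
  rw [h2]
  show _ = _ * Y (β j) + _
  ring

lemma strand_iter {W V : (ι → L) → ι → L} (β : Equiv.Perm (NC W)) (A B : NC W → L)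
    (h : ∀ Y ∈ Post W, ∀ j : NC W, W (V Y) j = A j * Y (β j) + B j) (k : ℕ) :
    ∃ A' B' : NC W → L, ∀ Y ∈ Post W, ∀ j : NC W,
      (fun Y => W (V Y))^[k] Y j = A' j * Y ((β ^ k) j) + B' j := by
  induction k with
  | zero => exact ⟨fun _ => 1, fun _ => 0, fun Y _ j => by simp⟩
  | succ k ih =>
    obtain ⟨A', B', h'⟩ := ih
    refine ⟨fun j => A' j * A ((β ^ k) j), fun j => A' j * B ((β ^ k) j) + B' j, ?_⟩
    intro Y hY j
    rw [iterate_succ_apply, h' _ (mem_Post W _) j, h Y hY, pow_succ', Equiv.Perm.mul_apply]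
    ring

/-- the number of iterations -/
def Kn (s : Finset ι) : ℕ := Fintype.card (Equiv.Perm s)

lemma Kn_pos (s : Finset ι) : 0 < Kn s := Fintype.card_pos

lemma strand_final {W V : (ι → L) → ι → L} {φ ψ : ι → Option ι} (hW : CL W φ) (hV : CL V ψ)
    (hmin : (NC W).card ≤ (NC (fun Y => W (V (W Y)))).card) (O : Subring L)
    (hWO : ∀ Y : ι → L, (∀ j, Y j ∈ O) → ∀ j, W Y j ∈ O)
    (hVO : ∀ Y : ι → L, (∀ j, Y j ∈ O) → ∀ j, V Y j ∈ O) :
    ∃ A B : ι → L, (∀ j, A j ∈ O) ∧ (∀ j, B j ∈ O) ∧ ∀ Y ∈ Post W, ∀ j,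
      (fun Y => W (V Y))^[Kn (NC W)] Y j = A j * Y j + B j := by
  obtain ⟨β, A, B, h⟩ := strand hW hV hmin
  obtain ⟨A', B', h'⟩ := strand_iter β A B h (Kn (NC W))
  have hβ : β ^ Kn (NC W) = 1 := pow_card_eq_one
  rw [hβ] at h'
  have hO : ∀ (k : ℕ) (Y : ι → L), (∀ j, Y j ∈ O) → ∀ j, (fun Y => W (V Y))^[k] Y j ∈ O := by
    intro k
    induction k with
    | zero => intro Y hY j; exact hY j
    | succ k ih =>
      intro Y hY j
      rw [iterate_succ_apply]
      exact ih _ (hWO _ (hVO _ hY)) j
  have hW0 : ∀ j, W 0 j ∈ O := hWO 0 fun j => O.zero_mem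
  let C : ι → L := fun l => if l ∈ NC W then 0 else W 0 l
  have hCO : ∀ j, C j ∈ O := by
    intro j
    by_cases hj : j ∈ NC W
    · simp only [C, if_pos hj]; exact O.zero_mem
    · simp only [C, if_neg hj]; exact hW0 j
  have hCP : C ∈ Post W := fun j hj => by simp only [C, if_neg hj]
  have hB' : ∀ j, B' j ∈ O := by
    intro j
    have h1 := h' C hCP j
    simp only [Equiv.Perm.one_apply] at h1
    have h2 : C j = 0 := by simp only [C, if_pos j.2]
    rw [h2, mul_zero, zero_add] at h1
    rw [← h1]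
    exact hO _ C hCO j
  have hA' : ∀ j, A' j ∈ O := by
    intro j
    have h1 := h' (update C j 1) (by
      intro i hi
      have : i ≠ j := by rintro rfl; exact hi j.2
      rw [update_of_ne this]
      exact hCP i hi) j
    simp only [Equiv.Perm.one_apply, update_self, mul_one] at h1
    have h2 : A' j = (fun Y => W (V Y))^[Kn (NC W)] (update C j 1) j - B' j := by
      rw [h1]; ring
    rw [h2]
    apply O.sub_mem _ (hB' j)
    apply hO
    intro i
    by_cases hi : i = j
    · subst hi; simp [O.one_mem]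
    · rw [update_of_ne hi]; exact hCO i
  refine ⟨fun j => if hj : j ∈ NC W then A' ⟨j, hj⟩ else 0,
    fun j => if hj : j ∈ NC W then B' ⟨j, hj⟩ else W 0 j, ?_, ?_, ?_⟩
  · intro j
    by_cases hj : j ∈ NC W
    · simp only [dif_pos hj]; exact hA' _
    · simp only [dif_neg hj]; exact O.zero_mem
  · intro j
    by_cases hj : j ∈ NC W
    · simp only [dif_pos hj]; exact hB' _
    · simp only [dif_neg hj]; exact hW0 j
  · intro Y hY j
    by_cases hj : j ∈ NC W
    · simp only [dif_pos hj]
      exact h' Y hY ⟨j, hj⟩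
    · simp only [dif_neg hj, zero_mul, zero_add]
      obtain ⟨k, hk⟩ : ∃ k, Kn (NC W) = k + 1 := ⟨Kn (NC W) - 1, by have := Kn_pos (NC W); omega⟩
      rw [hk, iterate_succ_apply']
      exact not_mem_NC hj _ _

end cl

end Pool.Agent.Helper22.CR
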