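import Pool.Agent.Helper22.CR.C2

set_option autoImplicit false
set_option linter.unusedSectionVars false

/-! No automaton reading segments. -/

namespace Pool.Agent.Helper22.CR

open Filter Topology Function

/-- the target value -/
def Gv : List ℕ → ℕ
  | [] => 1
  | n :: ns => 1 + (n + 1) * Gv ns

/-- product of the factors -/
def Pv : List ℕ → ℕ
  | [] => 1
  | n :: ns => (n + 1) * Pv ns

lemma Gv_pos (ns : List ℕ) : 0 < Gv ns := by
  cases ns with
  | nil => simp [Gv]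
  | cons n ns => simp only [Gv]; omega

lemma Pv_pos (ns : List ℕ) : 0 < Pv ns := by
  induction ns with
  | nil => simp [Pv]
  | cons n ns ih => simp only [Pv]; positivity

lemma Pv_append (u v : List ℕ) : Pv (u ++ v) = Pv u * Pv v := by
  induction u with
  | nil => simp [Pv]
  | cons n u ih => simp only [List.cons_append, Pv, ih]; ring

lemma Gv_append {L : Type} [Field L] (u v : List ℕ) :
    (Gv (u ++ v) : L) = Gv u + Pv u * (Gv v - 1) := by
  induction u with
  | nil => simp [Pv, Gv]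
  | cons n u ih =>
    simp only [List.cons_append, Pv, Gv, Nat.cast_add, Nat.cast_mul, ih]
    push_cast
    ring

section seg

variable {L : Type} [Field L] {ι : Type} [Fintype ι] [DecidableEq ι] {St : Type}

/-- run: states -/
def sS (nx : St → ℕ → St) : St → List ℕ → St
  | q, [] => q
  | q, n :: ns => sS nx (nx q n) ns

/-- run: registers -/
def sF (nx : St → ℕ → St) (U : St → ℕ → (ι → L) → ι → L) : St → List ℕ → (ι → L) → ι → L
  | _, [], Y => Y
  | q, n :: ns, Y => sF nx U (nx q n) ns (U q n Y)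

lemma sS_append (nx : St → ℕ → St) (q : St) (u v : List ℕ) :
    sS nx q (u ++ v) = sS nx (sS nx q u) v := by
  induction u generalizing q with
  | nil => rfl
  | cons n u ih => exact ih _

lemma sF_append (nx : St → ℕ → St) (U : St → ℕ → (ι → L) → ι → L) (q : St) (u v : List ℕ)
    (Y : ι → L) : sF nx U q (u ++ v) Y = sF nx U (sS nx q u) v (sF nx U q u Y) := by
  induction u generalizing q Y with
  | nil => rfl
  | cons n u ih => exact ih _ _

lemma sF_CL {nx : St → ℕ → St} {U : St → ℕ → (ι → L) → ι → L} (hU : ∀ q n, ∃ φ, CL (U q n) φ)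
    (q : St) (u : List ℕ) : ∃ φ, CL (sF nx U q u) φ := by
  induction u generalizing q with
  | nil => exact ⟨_, CL.id⟩
  | cons n u ih =>
    obtain ⟨φ, hφ⟩ := hU q n
    obtain ⟨ψ, hψ⟩ := ih (nx q n)
    exact ⟨_, hφ.comp hψ⟩

lemma sF_O {nx : St → ℕ → St} {U : St → ℕ → (ι → L) → ι → L} (O : Subring L)
    (hU : ∀ q n Y, (∀ j, Y j ∈ O) → ∀ j, U q n Y j ∈ O) (q : St) (u : List ℕ) :
    ∀ Y, (∀ j, Y j ∈ O) → ∀ j, sF nx U q u Y j ∈ O := by
  induction u generalizing q with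
  | nil => intro Y h; exact h
  | cons n u ih => intro Y h; exact ih _ _ (hU q n Y h)

lemma sS_rep (nx : St → ℕ → St) (q : St) (u : List ℕ) (h : sS nx q u = q) (k : ℕ) :
    sS nx q (List.replicate k u).flatten = q := by
  induction k with
  | zero => rfl
  | succ k ih => rw [List.replicate_succ, List.flatten_cons, sS_append, h, ih]

lemma sF_rep (nx : St → ℕ → St) (U : St → ℕ → (ι → L) → ι → L) (q : St) (u : List ℕ)
    (h : sS nx q u = q) (k : ℕ) (Y : ι → L) :
    sF nx U q (List.replicate k u).flatten Y = (sF nx U q u)^[k] Y := by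
  induction k generalizing Y with
  | zero => rfl
  | succ k ih => rw [List.replicate_succ, List.flatten_cons, sF_append, h, ih, iterate_succ_apply]

/-- a state reachable from `q0` which can be reached back from everything reachable from it -/
lemma exists_rec [Finite St] (nx : St → ℕ → St) (q0 : St) : ∃ p : List ℕ,
    ∀ u v : List ℕ, ∃ w, sS nx (sS nx (sS nx q0 p) u) w = sS nx (sS nx q0 p) v := by
  classical
  let ρ : St → Set St := fun q => Set.range (sS nx q)
  obtain ⟨p, hp⟩ : ∃ p : List ℕ, ∀ p' : List ℕ,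
      (ρ (sS nx q0 p)).ncard ≤ (ρ (sS nx q0 p')).ncard := by
    have hne : ({m | ∃ p, (ρ (sS nx q0 p)).ncard = m} : Set ℕ).Nonempty := ⟨_, [], rfl⟩
    obtain ⟨p, hp⟩ := Nat.sInf_mem hne
    exact ⟨p, fun p' => by rw [hp]; exact Nat.sInf_le ⟨p', rfl⟩⟩
  refine ⟨p, fun u v => ?_⟩
  have hsub : ρ (sS nx (sS nx q0 p) u) ⊆ ρ (sS nx q0 p) := by
    rintro _ ⟨w, rfl⟩
    exact ⟨u ++ w, sS_append nx _ u w⟩
  have heq : ρ (sS nx (sS nx q0 p) u) = ρ (sS nx q0 p) := by
    apply Set.eq_of_subset_of_ncard_le hsub _ (Set.toFinite _)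
    rw [← sS_append]
    exact hp _
  have : sS nx (sS nx q0 p) v ∈ ρ (sS nx (sS nx q0 p) u) := by
    rw [heq]; exact ⟨v, rfl⟩
  exact this

end seg

/-- the integral elements -/
def Op (p : ℕ) [Fact p.Prime] : Subring ℚ_[p] := PadicInt.subring p

lemma mem_Op {p : ℕ} [Fact p.Prime] {x : ℚ_[p]} : x ∈ Op p ↔ ‖x‖ ≤ 1 := Iff.rfl

lemma nat_norm {p : ℕ} [Fact p.Prime] (n : ℕ) : ‖(n : ℚ_[p])‖ ≤ 1 := by
  have := Padic.norm_int_le_one (p := p) (n : ℤ)
  simpa using this

theorem no_seg (p : ℕ) [Fact p.Prime] {ι : Type} [Fintype ι] [DecidableEq ι] {St : Type}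
    [Finite St] (nx : St → ℕ → St) (U : St → ℕ → (ι → ℚ_[p]) → ι → ℚ_[p])
    (hU : ∀ q n, ∃ φ, CL (U q n) φ)
    (hUO : ∀ q n Y, (∀ j, Y j ∈ Op p) → ∀ j, U q n Y j ∈ Op p)
    (q0 : St) (init : ι → ℚ_[p]) (out : St → (ι → ℚ_[p]) → ℚ_[p]) (hout : ∀ q, MA (out q))
    (hc : ∀ q, Continuous (out q))
    (hval : ∀ ns, ns ≠ [] → out (sS nx q0 ns) (sF nx U q0 ns init) = (Gv ns : ℚ_[p])) :
    False := by
  obtain ⟨p0, hp0⟩ := exists_rec nx q0
  set qh := sS nx q0 p0 with hqh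
  -- minimise the number of nonconstant components
  obtain ⟨p1, w0, hmin⟩ : ∃ p1 w0 : List ℕ, ∀ p1' w0' : List ℕ,
      (NC (sF nx U (sS nx qh p1) w0)).card ≤ (NC (sF nx U (sS nx qh p1') w0')).card := by
    have hne : ({m | ∃ p1 w0, (NC (sF nx U (sS nx qh p1) w0)).card = m} : Set ℕ).Nonempty :=
      ⟨_, [], [], rfl⟩
    obtain ⟨p1, w0, h⟩ := Nat.sInf_mem hne
    exact ⟨p1, w0, fun p1' w0' => by rw [h]; exact Nat.sInf_le ⟨p1', w0', rfl⟩⟩
  set r0 := sS nx qh p1 with hr0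
  set W := sF nx U r0 w0 with hW
  set q' := sS nx r0 w0 with hq'
  have hq'1 : q' = sS nx qh (p1 ++ w0) := by rw [sS_append]
  have hret : ∀ n : ℕ, ∃ v, sS nx (nx q' n) v = r0 := by
    intro n
    obtain ⟨v, hv⟩ := hp0 (p1 ++ w0 ++ [n]) p1
    refine ⟨v, ?_⟩
    rw [sS_append, ← hq'1] at hv
    exact hv
  choose v hv using hret
  let u : ℕ → List ℕ := fun n => n :: (v n ++ w0)
  have hu : ∀ n, sS nx q' (u n) = q' := by
    intro n
    show sS nx (nx q' n) (v n ++ w0) = q'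
    rw [sS_append, hv]
  let V : ℕ → (ι → ℚ_[p]) → ι → ℚ_[p] := fun n Y => sF nx U (nx q' n) (v n) (U q' n Y)
  have huF : ∀ n, sF nx U q' (u n) = fun Y => W (V n Y) := by
    intro n
    funext Y
    show sF nx U (nx q' n) (v n ++ w0) (U q' n Y) = _
    rw [sF_append, hv]
  obtain ⟨φ, hφ⟩ := sF_CL (nx := nx) hU r0 w0
  have hVCL : ∀ n, ∃ ψ, CL (V n) ψ := by
    intro n
    obtain ⟨ψ, hψ⟩ := sF_CL (nx := nx) hU q' (n :: v n)
    exact ⟨ψ, hψ⟩
  have hWO : ∀ Y : ι → ℚ_[p], (∀ j, Y j ∈ Op p) → ∀ j, W Y j ∈ Op p :=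
    sF_O (Op p) hUO r0 w0
  have hVO : ∀ n, ∀ Y : ι → ℚ_[p], (∀ j, Y j ∈ Op p) → ∀ j, V n Y j ∈ Op p :=
    fun n => sF_O (nx := nx) (Op p) hUO q' (n :: v n)
  have hmin' : ∀ n, (NC W).card ≤ (NC (fun Y => W (V n (W Y)))).card := by
    intro n
    have h1 := hmin p1 (w0 ++ u n)
    have h2 : sF nx U (sS nx qh p1) (w0 ++ u n) = fun Y => W (V n (W Y)) := by
      funext Y
      rw [sF_append, ← hr0, ← hq', huF]
    rw [h2] at h1
    exact h1
  have hstr : ∀ n, ∃ A B : ι → ℚ_[p], (∀ j, A j ∈ Op p) ∧ (∀ j, B j ∈ Op p) ∧ ∀ Y ∈ Post W,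
      ∀ j, (fun Y => W (V n Y))^[Kn (NC W)] Y j = A j * Y j + B j := by
    intro n
    obtain ⟨ψ, hψ⟩ := hVCL n
    exact strand_final hφ hψ (hmin' n) (Op p) hWO (hVO n)
  choose A B hA hB hAB using hstr
  let K := Kn (NC W)
  obtain ⟨K', hK'⟩ : ∃ k, Kn (NC W) = k + 1 := ⟨Kn (NC W) - 1, by have := Kn_pos (NC W); omega⟩
  let x : ℕ → List ℕ := fun n => (List.replicate (K' + 1) (u n)).flatten
  let rest : ℕ → List ℕ := fun n => (v n ++ w0) ++ (List.replicate K' (u n)).flatten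
  have hx : ∀ n, x n = n :: rest n := by
    intro n
    simp only [x, rest, u, List.replicate_succ, List.flatten_cons, List.cons_append]
  have hxS : ∀ n, sS nx q' (x n) = q' := fun n => sS_rep nx q' (u n) (hu n) _
  have hxF : ∀ n Y, sF nx U q' (x n) Y = (fun Y => W (V n Y))^[K' + 1] Y := by
    intro n Y
    rw [sF_rep nx U q' (u n) (hu n), huF]
  -- the compactness argument
  let N : ℕ → ℕ := fun k => p ^ k - 1
  have hN : ∀ k, N k + 1 = p ^ k := by
    intro k
    have : 0 < p ^ k := pow_pos (Fact.out : p.Prime).pos k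
    simp only [N]; omega
  obtain ⟨AB, -, θ, hθ, hlim⟩ := tendsto_subseq_of_bounded
    (s := Metric.closedBall (0 : (ι → ℚ_[p]) × (ι → ℚ_[p])) 1)
    Metric.isBounded_closedBall (x := fun k => (A (N k), B (N k))) (by
      intro k
      rw [mem_closedBall_zero_iff, Prod.norm_def]
      apply max_le
      · exact (pi_norm_le_iff_of_nonneg zero_le_one).2 (hA (N k))
      · exact (pi_norm_le_iff_of_nonneg zero_le_one).2 (hB (N k)))
  let R : Type := {ns : List ℕ // (sS nx q0 ns = q' ∧ sF nx U q0 ns init ∈ Post W) ∧ ns ≠ []}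
  let step : ℕ → R → R := fun k r => ⟨r.1 ++ x (N (θ k)), by
    refine ⟨⟨?_, ?_⟩, by simp [r.2.2]⟩
    · rw [sS_append, r.2.1.1, hxS]
    · rw [sF_append, r.2.1.1, hxF, iterate_succ_apply']
      exact mem_Post W _⟩
  have hsmall : ∀ (g : ℕ → ℕ), Tendsto (fun k => (p : ℚ_[p]) ^ (θ k) * (g k : ℚ_[p])) atTop
      (𝓝 0) := by
    intro g
    apply squeeze_zero_norm (a := fun k => ‖(p : ℚ_[p])‖ ^ (θ k))
    · intro k
      rw [norm_mul, norm_pow]
      exact mul_le_of_le_one_right (by positivity) (nat_norm _)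
    · have h1 : Tendsto (fun k => ‖(p : ℚ_[p])‖ ^ k) atTop (𝓝 0) :=
        tendsto_pow_atTop_nhds_zero_of_lt_one (norm_nonneg _) Padic.norm_p_lt_one
      exact h1.comp hθ.tendsto_atTop
  have key1 := key (R := R) (fun r => sF nx U q0 r.1 init) (fun r => (Gv r.1 : ℚ_[p]))
    (fun r => (Pv r.1 : ℚ_[p])) (out q') (hout q') (hc q')
    (fun r => by
      have := hval r.1 r.2.2
      rw [r.2.1.1] at this
      exact this)
    (fun k => A (N (θ k))) (fun k => B (N (θ k))) AB.1 AB.2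
    (fun k => (p : ℚ_[p]) ^ (θ k) * (Gv (rest (N (θ k))) : ℚ_[p]))
    (fun k => (p : ℚ_[p]) ^ (θ k) * (Pv (rest (N (θ k))) : ℚ_[p]))
    step
    (by
      intro k r j
      show sF nx U q0 (r.1 ++ x (N (θ k))) init j = _
      rw [sF_append, r.2.1.1, hxF, ← hK', hAB _ _ r.2.1.2])
    (by
      intro k r
      show (Gv (r.1 ++ x (N (θ k))) : ℚ_[p]) = _
      rw [Gv_append, hx]
      simp only [Gv]
      rw [hN]
      push_cast
      ring)
    (by
      intro k r
      show (Pv (r.1 ++ x (N (θ k))) : ℚ_[p]) = _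
      rw [Pv_append, hx]
      simp only [Pv]
      rw [hN]
      push_cast
      ring)
    (hsmall _) (hsmall _)
    (by
      have h1 : (p : ℚ_[p]) ≠ 0 := by
        exact_mod_cast (Fact.out : p.Prime).ne_zero
      have h2 : (Gv (rest (N (θ 0))) : ℚ_[p]) ≠ 0 := by
        exact_mod_cast (Gv_pos _).ne'
      exact mul_ne_zero (pow_ne_zero _ h1) h2)
    (by
      intro j
      have h1 := (hlim.fst_nhds)
      exact (tendsto_pi_nhds.1 h1) j)
    (by
      intro j
      have h1 := (hlim.snd_nhds)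
      exact (tendsto_pi_nhds.1 h1) j)
  have hr : (sS nx q0 (p0 ++ p1 ++ w0 ++ x 0) = q' ∧
      sF nx U q0 (p0 ++ p1 ++ w0 ++ x 0) init ∈ Post W) ∧ p0 ++ p1 ++ w0 ++ x 0 ≠ [] := by
    have h0 : sS nx q0 (p0 ++ p1 ++ w0) = q' := by rw [sS_append, sS_append]
    refine ⟨⟨?_, ?_⟩, by simp [hx]⟩
    · rw [sS_append, h0, hxS]
    · rw [sF_append, h0, hxF, iterate_succ_apply']
      exact mem_Post W _
  have h1 := key1 ⟨_, hr⟩
  have h2 : (Pv (p0 ++ p1 ++ w0 ++ x 0) : ℚ_[p]) ≠ 0 := by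
    exact_mod_cast (Pv_pos _).ne'
  exact h2 h1

end Pool.Agent.Helper22.CR
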